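import Pool.Agent.helper95.DP.SpecH

/-!
# H01: the zero-one law for two infinite arms in a time window
-/

namespace DP

open MeasureTheory ProbabilityTheory Filter Topology

theorem H01_dep (m N : ℕ) : Dep (Ev fun c => two c 0 m N) (ann 0 m N) := by
  intro b b' hb
  have hc : ∀ v ∈ ann 0 m N, col b v = col b' v := fun v hv => col_congr (hb v hv)
  have h : ∀ k : Bool, arm (col b) k 0 m N ↔ arm (col b') k 0 m N := by
    intro k
    unfold arm
    simp only [Conn.congr hc]
  exact and_congr (h true) (h false)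

theorem H01_hit (hMS : HMS_stmt) (m' : MeasurableSpace (V → Path)) (m N : ℕ) (a b : ℝ)
    (h : ∀ v ∈ ann 0 m N, Measurable[m'] (fun X : V → Path => X v)) :
    MeasurableSet[m'] (Hit m N a b) := by
  set Λ : Finset V := (ann_finite 0 m N).toFinset with hΛ
  have hq : ∀ q : ℚ, MeasurableSet[m'] {X : V → Path | two (col (cfg X q)) 0 m N} := by
    intro q
    have h1 : {X : V → Path | two (col (cfg X q)) 0 m N} =
        (fun X : V → Path => (fun v : Λ => st (X v.1) q)) ⁻¹'
          {y : Λ → Bool | ext Λ y ∈ Ev fun c => two c 0 m N} := by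
      ext X
      have h2 := H01_dep m N (cfg X q) (ext Λ (fun v : Λ => st (X v.1) q)) (by
        intro v hv
        have hv' : v ∈ Λ := by rw [hΛ, Set.Finite.mem_toFinset]; exact hv
        simp only [ext, dif_pos hv', cfg])
      exact h2
    rw [h1]
    have hm : @Measurable _ _ m' _ (fun X : V → Path => (fun v : Λ => st (X v.1) q)) := by
      refine @measurable_pi_lambda _ _ _ m' _ _ fun v => ?_
      have hv : v.1 ∈ ann 0 m N := (Set.Finite.mem_toFinset (ann_finite 0 m N)).1 v.2
      have h3 : Measurable (fun x : Path => st x (q : ℝ)) :=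
        hMS.2.comp (measurable_const.prodMk measurable_id)
      exact h3.comp (h v.1 hv)
    exact hm (Set.toFinite _).measurableSet
  have h2 : Hit m N a b = ⋃ q : ℚ, ⋃ (_ : a ≤ (q : ℝ) ∧ (q : ℝ) ≤ b),
      {X : V → Path | two (col (cfg X q)) 0 m N} := by
    ext X
    simp only [Hit, Set.mem_ofPred_eq, Set.mem_iUnion, exists_prop]
    constructor
    · rintro ⟨q, h1, h2, h3⟩
      exact ⟨q, ⟨h1, h2⟩, h3⟩
    · rintro ⟨q, ⟨h1, h2⟩, h3⟩
      exact ⟨q, h1, h2, h3⟩
  rw [h2]
  exact MeasurableSet.iUnion fun q => MeasurableSet.iUnion fun _ => hq q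

/-- The infinite hitting event in terms of large radii. -/
theorem H01_eq (hTW : HTW_stmt) (a b : ℝ) (m₁ : ℕ) :
    InfHit a b = ⋃ m : ℕ, ⋃ (_ : m₁ ≤ m), ⋂ N : ℕ, ⋂ (_ : m < N), Hit m N a b := by
  ext X
  simp only [InfHit, Set.mem_ofPred_eq, Set.mem_iUnion, Set.mem_iInter, exists_prop]
  constructor
  · rintro ⟨m, hm⟩
    refine ⟨max m m₁, le_max_right _ _, fun N hN => ?_⟩
    obtain ⟨q, h1, h2, h3⟩ := hm N (lt_of_le_of_lt (le_max_left _ _) hN)
    exact ⟨q, h1, h2, hTW _ _ _ _ _ _ (le_max_left _ _) hN.le le_rfl h3⟩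
  · rintro ⟨m, -, hm⟩
    exact ⟨m, hm⟩

/-- H01. -/
theorem H01 (hMS : HMS_stmt) (hTW : HTW_stmt) : H01_stmt := by
  intro a b
  have key : ∀ (m' : MeasurableSpace (V → Path)) (m₁ : ℕ),
      (∀ v : V, m₁ ≤ sd 0 v → Measurable[m'] (fun X : V → Path => X v)) →
      MeasurableSet[m'] (InfHit a b) := by
    intro m' m₁ h
    rw [H01_eq hTW a b m₁]
    refine MeasurableSet.iUnion fun m => MeasurableSet.iUnion fun hm =>
      MeasurableSet.iInter fun N => MeasurableSet.iInter fun _ => ?_
    exact H01_hit hMS m' m N a b fun v hv => h v (hm.trans hv.1)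
  refine ⟨key _ 0 fun v _ => measurable_pi_apply v, ?_⟩
  set s : V → MeasurableSpace (V → Path) := fun v =>
    MeasurableSpace.comap (fun X : V → Path => X v) inferInstance with hs
  have hind : iIndep s PV := by
    have := iIndepFun_infinitePi (ι := V) (P := fun _ : V => nu) (X := fun _ x => x)
      (fun _ => measurable_id)
    exact this
  have hle : ∀ v, s v ≤ (inferInstance : MeasurableSpace (V → Path)) := fun v =>
    (measurable_pi_apply v).comap_le
  refine measure_zero_or_one_of_measurableSet_limsup (s := s) (f := Filter.cofinite)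
    (p := Set.Finite) (ns := fun F : Finset V => (F : Set V)) hle hind
    (fun t ht => ht.compl_mem_cofinite) (Monotone.directed_le fun A B hAB => by
      simpa using hAB) (fun F => F.finite_toSet) (fun v => ⟨{v}, by simp⟩) ?_
  rw [Filter.limsup_eq, MeasurableSpace.measurableSet_sInf]
  intro m' hm'
  have hfin : {v : V | s v ≤ m'}ᶜ.Finite := hm'
  obtain ⟨m₁, hm₁⟩ : ∃ m₁ : ℕ, ∀ v : V, m₁ ≤ sd 0 v → s v ≤ m' := by
    refine ⟨hfin.toFinset.sup (fun v => sd 0 v) + 1, fun v hv => ?_⟩
    by_contra hne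
    have h1 : v ∈ hfin.toFinset := by
      rw [Set.Finite.mem_toFinset]
      exact hne
    have h2 : sd 0 v ≤ hfin.toFinset.sup (fun v => sd 0 v) :=
      Finset.le_sup (f := fun v => sd 0 v) h1
    omega
  refine key m' m₁ fun v hv => ?_
  exact measurable_iff_comap_le.2 (hm₁ v hv)

end DP
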