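import Pool.Agent.helper95.DP.SpecH

/-!
# HSM: second moment bound for hitting times
-/

namespace DP

open MeasureTheory ProbabilityTheory Filter Topology

variable {Λ : Finset V}

/-- The autocorrelation of a local function is continuous in time. -/
theorem HSM_cont {f : (V → Bool) → ℝ} (hf : LF Λ f) :
    Continuous fun u : ℝ => bf (fun _ => 1 - Real.exp (-u)) f f := by
  have h : (fun u : ℝ => bf (fun _ => 1 - Real.exp (-u)) f f) = fun u : ℝ =>
      ∑ x : Λ → Bool × Bool, (∏ v, wt (1 - Real.exp (-u)) (x v)) *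
        ((fun w : V → Bool × Bool => f (fun v => (w v).1) * f (fun v => (w v).2)) (ext Λ x)) := by
    funext u
    unfold bf
    rw [ex2_eq_sum _ (lf_pair hf hf)]
  rw [h]
  refine continuous_finset_sum _ fun x _ => Continuous.mul (continuous_finset_prod _ fun v _ => ?_)
    continuous_const
  unfold wt
  fun_prop

theorem HSM_meas (hMS : HMS_stmt) {f : (V → Bool) → ℝ} (hf : LF Λ f) :
    Measurable fun p : ℝ × (V → Path) => f (cfg p.2 p.1) := by
  have h : (fun p : ℝ × (V → Path) => f (cfg p.2 p.1)) =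
      (fun y : Λ → Bool => f (ext Λ y)) ∘ fun p v => st (p.2 v.1) p.1 := by
    funext p
    exact (ext_restrict hf (cfg p.2 p.1)).symm
  rw [h]
  refine (measurable_of_finite _).comp (measurable_pi_lambda _ fun v => ?_)
  exact hMS.2.comp (measurable_fst.prodMk ((measurable_pi_apply v.1).comp measurable_snd))

theorem HSM_one (hMS : HMS_stmt) (hLW : HLW_stmt) {f : (V → Bool) → ℝ} (hf : LF Λ f) {t : ℝ}
    (ht : 0 ≤ t) : ∫ X, f (cfg X t) ∂PV = ex1 f := by
  have hm : Measurable fun X : V → Path => cfg X t := by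
    refine measurable_pi_lambda _ fun v => ?_
    exact hMS.2.comp (measurable_const.prodMk (measurable_pi_apply v))
  unfold ex1
  rw [← hLW.2 t ht, integral_map hm.aemeasurable hf.measurable.aestronglyMeasurable]

theorem HSM_two' (hMS : HMS_stmt) (hLW : HLW_stmt) {f : (V → Bool) → ℝ} (hf : LF Λ f) {s t : ℝ}
    (hs : 0 ≤ s) (hst : s ≤ t) :
    ∫ X, f (cfg X s) * f (cfg X t) ∂PV = bf (fun _ => 1 - Real.exp (-(t - s))) f f := by
  have hm : Measurable fun (X : V → Path) (v : V) => (st (X v) s, st (X v) t) := by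
    refine measurable_pi_lambda _ fun v => Measurable.prodMk ?_ ?_
    · exact hMS.2.comp (measurable_const.prodMk (measurable_pi_apply v))
    · exact hMS.2.comp (measurable_const.prodMk (measurable_pi_apply v))
  unfold bf ex2
  rw [← hLW.1 s t hs hst, integral_map hm.aemeasurable (lf_pair hf hf).measurable.aestronglyMeasurable]
  rfl

theorem HSM_two (hMS : HMS_stmt) (hLW : HLW_stmt) {f : (V → Bool) → ℝ} (hf : LF Λ f) {s t : ℝ}
    (hs : 0 ≤ s) (ht : 0 ≤ t) :
    ∫ X, f (cfg X s) * f (cfg X t) ∂PV = bf (fun _ => 1 - Real.exp (-|t - s|)) f f := by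
  rcases le_total s t with h | h
  · rw [HSM_two' hMS hLW hf hs h, abs_of_nonneg (by linarith)]
  · have h1 : ∀ X : V → Path, f (cfg X s) * f (cfg X t) = f (cfg X t) * f (cfg X s) :=
      fun X => mul_comm _ _
    simp only [h1]
    rw [HSM_two' hMS hLW hf ht h, abs_of_nonpos (by linarith)]
    congr 1
    funext _
    congr 2
    ring

/-- The convolution bound. -/
theorem HSM_conv {G : ℝ → ℝ} (hG : Continuous G) (hG0 : ∀ u, 0 ≤ G u) {a b s : ℝ}
    (hs : s ∈ Set.Ioc a b) (hb : b ≤ a + 1) :
    ∫ t in Set.Ioc a b, G |t - s| ≤ 2 * ∫ u in (0 : ℝ)..1, G u := by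
  have hab : a ≤ b := hs.1.le.trans hs.2
  have hc : Continuous fun t : ℝ => G |t - s| := hG.comp (by fun_prop)
  rw [← intervalIntegral.integral_of_le hab,
    ← intervalIntegral.integral_add_adjacent_intervals (hc.intervalIntegrable a s)
      (hc.intervalIntegrable s b)]
  have h1 : ∫ t in a..s, G |t - s| = ∫ u in (0 : ℝ)..(s - a), G u := by
    have e : ∫ t in a..s, G |t - s| = ∫ t in a..s, G (s - t) := by
      refine intervalIntegral.integral_congr fun t ht => ?_
      rw [Set.uIcc_of_le hs.1.le] at ht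
      show G |t - s| = G (s - t)
      rw [abs_of_nonpos (by linarith [ht.2])]
      congr 1
      ring
    rw [e, intervalIntegral.integral_comp_sub_left (fun u => G u) s]
    simp
  have h2 : ∫ t in s..b, G |t - s| = ∫ u in (0 : ℝ)..(b - s), G u := by
    have e : ∫ t in s..b, G |t - s| = ∫ t in s..b, G (t - s) := by
      refine intervalIntegral.integral_congr fun t ht => ?_
      rw [Set.uIcc_of_le hs.2] at ht
      show G |t - s| = G (t - s)
      rw [abs_of_nonneg (by linarith [ht.1])]
    rw [e, intervalIntegral.integral_comp_sub_right (fun u => G u) s]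
    simp
  have h3 : ∀ c : ℝ, 0 ≤ c → c ≤ 1 → ∫ u in (0 : ℝ)..c, G u ≤ ∫ u in (0 : ℝ)..1, G u := by
    intro c h0 h1
    exact intervalIntegral.integral_mono_interval le_rfl h0 h1
      (Filter.Eventually.of_forall fun u => hG0 u) (hG.intervalIntegrable 0 1)
  rw [h1, h2]
  have h4 := h3 (s - a) (by linarith [hs.1]) (by linarith [hs.2])
  have h5 := h3 (b - s) (by linarith [hs.2]) (by linarith [hs.1])
  linarith

/-- Almost surely all clocks are good. -/
theorem HSM_good (hGD : HGD_stmt) (v : V) : ∀ᵐ X ∂PV, GoodT (X v).1 := by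
  have h1 : ∀ᵐ x ∂nu, GoodT x.1 := by
    unfold nu
    exact Measure.quasiMeasurePreserving_fst.ae hGD
  have h2 : MeasurePreserving (fun X : V → Path => X v) PV nu :=
    ⟨measurable_pi_apply v, Measure.infinitePi_map_eval _ v⟩
  exact h2.quasiMeasurePreserving.ae h1

/-- A positive integral gives a rational time. -/
theorem HSM_time (hRC : HRC_stmt) {f : (V → Bool) → ℝ} (hf : LF Λ f) (h0 : ∀ x, 0 ≤ f x)
    {a b : ℝ} (ha : 0 ≤ a) (X : V → Path) (hX : ∀ v ∈ Λ, GoodT (X v).1)
    (hZ : 0 < ∫ t in Set.Ioc a b, f (cfg X t)) :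
    ∃ q : ℚ, a ≤ q ∧ q ≤ b ∧ 0 < f (cfg X q) := by
  obtain ⟨t, ht, htf⟩ : ∃ t ∈ Set.Ioo a b, 0 < f (cfg X t) := by
    by_contra hcon
    push Not at hcon
    rw [integral_Ioc_eq_integral_Ioo] at hZ
    have : ∫ t in Set.Ioo a b, f (cfg X t) = 0 :=
      setIntegral_eq_zero_of_forall_eq_zero fun t ht => le_antisymm (hcon t ht) (h0 _)
    linarith
  have hev : ∀ᶠ s in 𝓝[>] t, ∀ v ∈ Λ, cnt (X v).1 s = cnt (X v).1 t := by
    rw [Filter.eventually_all_finset]
    intro v hv
    obtain ⟨δ, hδ, h⟩ := (hRC (X v).1 (hX v hv)).1 t (ha.trans ht.1.le)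
    filter_upwards [Ioo_mem_nhdsGT (show t < t + δ by linarith)] with s hs
    exact h s hs.1.le hs.2
  obtain ⟨u, hu, hsub⟩ := mem_nhdsGT_iff_exists_Ioo_subset.1 hev
  obtain ⟨q, hq1, hq2⟩ := exists_rat_btwn (show t < min u b from lt_min hu ht.2)
  refine ⟨q, (ht.1.trans hq1).le, (hq2.le.trans (min_le_right _ _)), ?_⟩
  have h1 : ∀ v ∈ Λ, cnt (X v).1 q = cnt (X v).1 t :=
    hsub ⟨hq1, hq2.trans_le (min_le_left _ _)⟩
  have h2 : f (cfg X q) = f (cfg X t) := by
    refine hf _ _ fun v hv => ?_
    unfold cfg st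
    rw [h1 v hv]
  rw [h2]
  exact htf

/-- HSM. -/
theorem HSM (hMS : HMS_stmt) (hLW : HLW_stmt) (hGD : HGD_stmt) (hRC : HRC_stmt) : HSM_stmt := by
  intro Λ f a b C hf h0 ha hab hb1 hC he hsm
  set μ : Measure ℝ := volume.restrict (Set.Ioc a b) with hμ
  haveI : IsFiniteMeasure μ := by rw [hμ]; infer_instance
  have hmF := HSM_meas hMS hf
  obtain ⟨K, hK⟩ := hf.bounded
  set Z : (V → Path) → ℝ := fun X => ∫ t, f (cfg X t) ∂μ with hZ
  have hZ0 : ∀ X, 0 ≤ Z X := fun X => integral_nonneg fun t => h0 _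
  have hμr : μ.real Set.univ = b - a := by
    rw [hμ, measureReal_restrict_apply MeasurableSet.univ, Set.univ_inter,
      measureReal_def, Real.volume_Ioc, ENNReal.toReal_ofReal (by linarith)]
  have hZm : StronglyMeasurable Z := by
    have h1 : StronglyMeasurable (Function.uncurry fun (X : V → Path) (t : ℝ) => f (cfg X t)) :=
      (hmF.comp measurable_swap).stronglyMeasurable
    exact h1.integral_prod_right
  have hZK : ∀ X, |Z X| ≤ K * (b - a) := by
    intro X
    have h1 := norm_integral_le_of_norm_le_const (μ := μ) (f := fun t => f (cfg X t)) (C := K)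
      (Filter.Eventually.of_forall fun t => by rw [Real.norm_eq_abs]; exact hK _)
    rw [hμr, Real.norm_eq_abs] at h1
    exact h1
  have hZi : Integrable Z PV := Integrable.of_bound hZm.aestronglyMeasurable (K * (b - a))
    (Filter.Eventually.of_forall fun X => by rw [Real.norm_eq_abs]; exact hZK X)
  have hZ2i : Integrable (fun X => Z X * Z X) PV :=
    Integrable.of_bound (hZm.mul hZm).aestronglyMeasurable ((K * (b - a)) * (K * (b - a)))
      (Filter.Eventually.of_forall fun X => by
        rw [Real.norm_eq_abs, abs_mul]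
        exact mul_le_mul (hZK X) (hZK X) (abs_nonneg _) ((abs_nonneg _).trans (hZK X)))
  -- first moment
  have hE1 : ∫ X, Z X ∂PV = (b - a) * ex1 f := by
    have hi : Integrable (Function.uncurry fun (X : V → Path) (t : ℝ) => f (cfg X t))
        (PV.prod μ) :=
      Integrable.of_bound (hmF.comp measurable_swap).aestronglyMeasurable K
        (Filter.Eventually.of_forall fun p => by rw [Real.norm_eq_abs]; exact hK _)
    rw [hZ, integral_integral_swap hi]
    have h1 : ∫ t, (∫ X, f (cfg X t) ∂PV) ∂μ = ∫ _t, ex1 f ∂μ := by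
      refine integral_congr_ae ?_
      rw [hμ]
      filter_upwards [ae_restrict_mem measurableSet_Ioc] with t ht
      exact HSM_one hMS hLW hf (ha.trans ht.1.le)
    rw [h1, integral_const, hμr, smul_eq_mul]
  -- second moment
  set G : ℝ → ℝ := fun u => bf (fun _ => 1 - Real.exp (-u)) f f with hG
  have hGc : Continuous G := HSM_cont hf
  have hG0 : ∀ u, 0 ≤ G u := fun u => bf_nonneg _ hf
  have hE2 : ∫ X, Z X * Z X ∂PV ≤ 2 * (b - a) * C * ex1 f ^ 2 := by
    have h1 : ∀ X, Z X * Z X = ∫ s, ∫ t, f (cfg X s) * f (cfg X t) ∂μ ∂μ := by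
      intro X
      rw [hZ]
      simp only
      rw [← integral_mul_const]
      refine integral_congr_ae (Filter.Eventually.of_forall fun s => ?_)
      simp only
      rw [integral_const_mul]
    have hi2 : Integrable (Function.uncurry fun (X : V → Path) (p : ℝ × ℝ) =>
        f (cfg X p.1) * f (cfg X p.2)) (PV.prod (μ.prod μ)) := by
      refine Integrable.of_bound ?_ (K * K) (Filter.Eventually.of_forall fun p => ?_)
      · refine Measurable.aestronglyMeasurable ?_
        refine Measurable.mul ?_ ?_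
        · exact hmF.comp ((measurable_fst.comp measurable_snd).prodMk measurable_fst)
        · exact hmF.comp ((measurable_snd.comp measurable_snd).prodMk measurable_fst)
      · show ‖f (cfg p.1 p.2.1) * f (cfg p.1 p.2.2)‖ ≤ K * K
        rw [Real.norm_eq_abs, abs_mul]
        exact mul_le_mul (hK _) (hK _) (abs_nonneg _) ((abs_nonneg _).trans (hK fun _ => true))
    have h2 : ∫ X, Z X * Z X ∂PV =
        ∫ p : ℝ × ℝ, (∫ X, f (cfg X p.1) * f (cfg X p.2) ∂PV) ∂(μ.prod μ) := by
      rw [← integral_integral_swap hi2]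
      refine integral_congr_ae (Filter.Eventually.of_forall fun X => ?_)
      simp only
      rw [h1 X, integral_prod]
      refine Integrable.of_bound ?_ (K * K) (Filter.Eventually.of_forall fun p => ?_)
      · refine Measurable.aestronglyMeasurable ?_
        refine Measurable.mul ?_ ?_
        · exact hmF.comp (measurable_fst.prodMk measurable_const)
        · exact hmF.comp (measurable_snd.prodMk measurable_const)
      · show ‖f (cfg X p.1) * f (cfg X p.2)‖ ≤ K * K
        rw [Real.norm_eq_abs, abs_mul]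
        exact mul_le_mul (hK _) (hK _) (abs_nonneg _) ((abs_nonneg _).trans (hK fun _ => true))
    have h3 : ∫ p : ℝ × ℝ, (∫ X, f (cfg X p.1) * f (cfg X p.2) ∂PV) ∂(μ.prod μ) =
        ∫ p : ℝ × ℝ, G |p.2 - p.1| ∂(μ.prod μ) := by
      refine integral_congr_ae ?_
      have hae : ∀ᵐ p ∂(μ.prod μ), p ∈ Set.Ioc a b ×ˢ Set.Ioc a b := by
        rw [hμ, Measure.prod_restrict]
        exact ae_restrict_mem (measurableSet_Ioc.prod measurableSet_Ioc)
      filter_upwards [hae] with p hp
      exact HSM_two hMS hLW hf (ha.trans hp.1.1.le) (ha.trans hp.2.1.le)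
    have hGi : Integrable (fun p : ℝ × ℝ => G |p.2 - p.1|) (μ.prod μ) := by
      have hc : Continuous fun p : ℝ × ℝ => G |p.2 - p.1| := hGc.comp (by fun_prop)
      have h4 : IntegrableOn (fun p : ℝ × ℝ => G |p.2 - p.1|)
          (Set.Icc a b ×ˢ Set.Icc a b) (volume.prod volume) :=
        hc.continuousOn.integrableOn_compact (isCompact_Icc.prod isCompact_Icc)
      rw [hμ, Measure.prod_restrict]
      exact h4.mono_set (Set.prod_mono Set.Ioc_subset_Icc_self Set.Ioc_subset_Icc_self)
    rw [h2, h3, integral_prod _ hGi]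
    have h5 : ∫ s, (∫ t, G |t - s| ∂μ) ∂μ ≤ ∫ _s, 2 * (C * ex1 f ^ 2) ∂μ := by
      refine integral_mono_ae hGi.integral_prod_left (integrable_const _) ?_
      have hae : ∀ᵐ s ∂μ, s ∈ Set.Ioc a b := by
        rw [hμ]; exact ae_restrict_mem measurableSet_Ioc
      filter_upwards [hae] with s hs
      have h6 := HSM_conv hGc hG0 hs hb1
      have h7 : ∫ u in (0 : ℝ)..1, G u ≤ C * ex1 f ^ 2 := hsm
      show ∫ t, G |t - s| ∂μ ≤ 2 * (C * ex1 f ^ 2)
      rw [hμ]
      linarith
    refine h5.trans (le_of_eq ?_)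
    rw [integral_const, hμr, smul_eq_mul]
    ring
  -- Paley-Zygmund
  set A : Set (V → Path) := {X | 0 < Z X} with hA
  have hAm : MeasurableSet A := measurableSet_lt measurable_const hZm.measurable
  have hPZ : (b - a) / (2 * C) ≤ PV.real A := by
    set lam : ℝ := 2 * C * ex1 f with hlam
    have h1 : 0 ≤ ∫ X, (Z X - lam * A.indicator 1 X) ^ 2 ∂PV :=
      integral_nonneg fun X => sq_nonneg _
    have h2 : ∀ X, (Z X - lam * A.indicator 1 X) ^ 2 =
        Z X * Z X - 2 * lam * Z X + lam ^ 2 * A.indicator 1 X := by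
      intro X
      by_cases hX : X ∈ A
      · rw [Set.indicator_of_mem hX]
        simp only [Pi.one_apply]
        ring
      · rw [Set.indicator_of_notMem hX]
        have h3 : Z X = 0 := by
          have h4 : ¬ 0 < Z X := hX
          exact le_antisymm (not_lt.1 h4) (hZ0 X)
        rw [h3]
        ring
    have hAi : Integrable (fun X => lam ^ 2 * A.indicator (1 : (V → Path) → ℝ) X) PV :=
      ((integrable_const (1 : ℝ)).indicator hAm).const_mul _
    simp only [h2] at h1
    have e1 : ∫ X, (Z X * Z X - 2 * lam * Z X + lam ^ 2 * A.indicator 1 X) ∂PV =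
        ∫ X, (Z X * Z X - 2 * lam * Z X) ∂PV +
          ∫ X, lam ^ 2 * A.indicator (1 : (V → Path) → ℝ) X ∂PV :=
      integral_add (f := fun X => Z X * Z X - 2 * lam * Z X)
        (hZ2i.sub (hZi.const_mul (2 * lam))) hAi
    rw [e1, integral_sub hZ2i (hZi.const_mul _), integral_const_mul, integral_const_mul,
      integral_indicator_one hAm, hE1] at h1
    have h3 : 0 ≤ lam ^ 2 * PV.real A - 2 * (b - a) * C * ex1 f ^ 2 := by
      have : 2 * lam * ((b - a) * ex1 f) = 4 * (b - a) * C * ex1 f ^ 2 := by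
        rw [hlam]; ring
      nlinarith [h1, hE2, this]
    have h4 : lam ^ 2 * PV.real A = (2 * C * ex1 f ^ 2) * (2 * C * PV.real A) := by
      rw [hlam]; ring
    have h5 : 0 < 2 * C * ex1 f ^ 2 := by positivity
    rw [div_le_iff₀ (by positivity)]
    by_contra hcon
    push Not at hcon
    have h6 : (2 * C * ex1 f ^ 2) * (2 * C * PV.real A) < (2 * C * ex1 f ^ 2) * (b - a) :=
      mul_lt_mul_of_pos_left (by linarith) h5
    nlinarith [h3, h4, h6]
  refine hPZ.trans (ENNReal.toReal_mono (measure_ne_top _ _) (measure_mono_ae ?_))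
  have hgood : ∀ᵐ X ∂PV, ∀ v ∈ Λ, GoodT (X v).1 := by
    rw [Filter.eventually_all_finset]
    exact fun v _ => HSM_good hGD v
  filter_upwards [hgood] with X hX hXA
  exact HSM_time hRC hf h0 ha X hX hXA

end DP
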