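import Pool.Agent.helper61.DP.SpecC
import Pool.Agent.helper61.DP.Base

/-! dp:RLL : the loop event is local and monotone. -/

namespace DP

theorem RLL_mono {c c' : V → Bool} {k : Bool} {g : V} {ℓ : ℕ}
    (h : ∀ v, ℓ < sd g v → sd g v < 3 * ℓ → c v = k → c' v = k) :
    (∃ S, Loop c k g ℓ S) → ∃ S, Loop c' k g ℓ S := by
  rintro ⟨S, l, u, hl, ho, hS⟩
  refine ⟨S, l, u, hl.mono ?_, ho, hS⟩
  rintro w ⟨h1, h2, h3⟩
  exact ⟨h1, h2, h w h1 h2 h3⟩

theorem RLL : RLL_stmt := by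
  intro k g ℓ
  constructor
  · apply Loc.ev
    · refine (box_finite g (3 * ℓ)).subset ?_
      rintro v ⟨_, hv⟩
      exact hv.le
    · intro c c' h
      constructor
      · exact RLL_mono fun v h1 h2 h3 => (h v ⟨h1, h2⟩) ▸ h3
      · exact RLL_mono fun v h1 h2 h3 => (h v ⟨h1, h2⟩).symm ▸ h3
  · exact Mon.ev fun c c' h => RLL_mono fun v _ _ => h v

end DP
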